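import Mathlib

set_option autoImplicit false

/-!
# Locating chromatic numbers of Cartesian products of grids

For every `n` there is a finite connected graph `G` (an `(n+1)`-dimensional grid with long sides)
with `χ_L(G) ≤ n + 3` and `χ_L(G □ G) ≥ 2 n + 3`. Hence no bound
`χ_L(G □ H) ≤ max {χ_L(G), χ_L(H)} + C` holds, and for `C = 3` it fails already with `n = 4`
(five-dimensional grids).

Proof. The distances to `n + 1` corners locate all vertices of the `(n+1)`-dimensional grid, so these
corners as singleton classes together with the two parity classes of the remaining vertices form a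
locating colouring. The product has `D ^ (2 n + 2)` vertices, but a colouring with `k` colours has at
most `k (diam + 1) ^ (k - 1)` colour codes, where `diam = 2 (n + 1) (D - 1)`.
-/

namespace Pool.Agent.Results.MP_fc8d4d_co.GridProducts

open SimpleGraph

/-- The distance from a vertex `v` to a (nonempty) set `C` of vertices of a connected graph. -/
noncomputable def distSet {V : Type} (G : SimpleGraph V) (v : V) (C : Set V) : ℕ :=
  sInf ((fun u => G.dist v u) '' C)

/-- `c` is a locating colouring of `G` with the colours `Fin k`: it is proper, all colour classes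
are nonempty, and distinct vertices have distinct colour codes. -/
def IsLocating {V : Type} (G : SimpleGraph V) (k : ℕ) (c : V → Fin k) : Prop :=
  (∀ u v, G.Adj u v → c u ≠ c v) ∧ Function.Surjective c ∧
    ∀ u v, (∀ i, distSet G u {x | c x = i} = distSet G v {x | c x = i}) → u = v

/-- The locating chromatic number: the least number of colours of a locating colouring. -/
noncomputable def chiL {V : Type} (G : SimpleGraph V) : ℕ :=
  sInf {k | ∃ c : V → Fin k, IsLocating G k c}

/-- Every finite connected graph has a locating colouring (give every vertex its own colour). -/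
theorem exists_locating {V : Type} [Fintype V] (G : SimpleGraph V) (hG : G.Connected) :
    ∃ c : V → Fin (Fintype.card V), IsLocating G (Fintype.card V) c := by
  classical
  let e := Fintype.equivFin V
  refine ⟨e, fun u v h h' => h.ne (e.injective h'), e.surjective, fun u v h => ?_⟩
  have h1 := h (e v)
  have h2 : {x | e x = e v} = {v} := by
    ext x
    simp
  rw [h2] at h1
  unfold distSet at h1
  rw [Set.image_singleton, Set.image_singleton, csInf_singleton, csInf_singleton] at h1
  rw [dist_self, hG.dist_eq_zero_iff] at h1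
  exact h1

theorem chiL_attained {V : Type} [Fintype V] (G : SimpleGraph V) (hG : G.Connected) :
    ∃ c : V → Fin (chiL G), IsLocating G (chiL G) c :=
  Nat.sInf_mem (s := {k | ∃ c : V → Fin k, IsLocating G k c}) ⟨_, exists_locating G hG⟩

theorem chiL_le {V : Type} (G : SimpleGraph V) (k : ℕ) (c : V → Fin k) (h : IsLocating G k c) :
    chiL G ≤ k := Nat.sInf_le ⟨c, h⟩

/-! ### The counting bound -/

theorem distSet_le {V : Type} (G : SimpleGraph V) {k : ℕ} (c : V → Fin k)
    (hc : Function.Surjective c) (M : ℕ) (hM : ∀ u v, G.dist u v ≤ M) (v : V) (i : Fin k) :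
    distSet G v {x | c x = i} ≤ M := by
  obtain ⟨u, hu⟩ := hc i
  have h1 : distSet G v {x | c x = i} ≤ G.dist v u := Nat.sInf_le ⟨u, hu, rfl⟩
  exact h1.trans (hM v u)

theorem card_le {V : Type} [Fintype V] (G : SimpleGraph V) (k : ℕ) (c : V → Fin (k + 1))
    (h : IsLocating G (k + 1) c) (M : ℕ) (hM : ∀ u v, G.dist u v ≤ M) :
    Fintype.card V ≤ (k + 1) * (M + 1) ^ k := by
  classical
  let F : V → Fin (k + 1) × (Fin k → Fin (M + 1)) := fun v =>
    (c v, fun j => ⟨distSet G v {x | c x = (c v).succAbove j},
      Nat.lt_succ_of_le (distSet_le G c h.2.1 M hM v _)⟩)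
  have hF : Function.Injective F := by
    intro u v huv
    have h1 : c u = c v := congrArg Prod.fst huv
    have h2 : ∀ j, distSet G u {x | c x = (c u).succAbove j} =
        distSet G v {x | c x = (c v).succAbove j} := by
      intro j
      have := congrFun (congrArg Prod.snd huv) j
      exact congrArg Fin.val this
    apply h.2.2
    intro i
    by_cases hi : i = c v
    · have z : ∀ w : V, distSet G w {x | c x = c w} = 0 := by
        intro w
        apply Nat.le_zero.1
        exact Nat.sInf_le ⟨w, rfl, dist_self⟩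
      rw [hi]
      have z1 := z u
      rw [h1] at z1
      rw [z1, z v]
    · obtain ⟨j, hj⟩ := Fin.exists_succAbove_eq hi
      have h3 := h2 j
      rw [h1, hj] at h3
      exact h3
  have := Fintype.card_le_of_injective F hF
  simpa using this

/-! ### Grids -/

/-- The grid graph on `Fin e → Fin D`: adjacent points differ by one in exactly one coordinate. -/
def grid (e D : ℕ) : SimpleGraph (Fin e → Fin D) where
  Adj x y := ∃ i, (∀ j, j ≠ i → x j = y j) ∧ ((x i).val + 1 = (y i).val ∨ (y i).val + 1 = (x i).val)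
  symm := ⟨fun x y ⟨i, h1, h2⟩ => ⟨i, fun j hj => (h1 j hj).symm, h2.symm⟩⟩
  loopless := ⟨fun x ⟨i, _, h2⟩ => by rcases h2 with h | h <;> omega⟩

/-- the `l_1` distance -/
def l1 {e D : ℕ} (x t : Fin e → Fin D) : ℕ := ∑ i, ((x i : ℤ) - (t i : ℤ)).natAbs

theorem l1_self {e D : ℕ} (x : Fin e → Fin D) : l1 x x = 0 := by simp [l1]

theorem l1_lip {e D : ℕ} {x y : Fin e → Fin D} (t : Fin e → Fin D) (h : (grid e D).Adj x y) :
    l1 x t ≤ l1 y t + 1 := by
  classical
  obtain ⟨i, h1, h2⟩ := h
  unfold l1
  rw [← Finset.add_sum_erase _ _ (Finset.mem_univ i), ← Finset.add_sum_erase _ _ (Finset.mem_univ i)]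
  have h3 : ∑ j ∈ Finset.univ.erase i, ((x j : ℤ) - (t j : ℤ)).natAbs =
      ∑ j ∈ Finset.univ.erase i, ((y j : ℤ) - (t j : ℤ)).natAbs := by
    apply Finset.sum_congr rfl
    intro j hj
    rw [h1 j (Finset.ne_of_mem_erase hj)]
  rw [h3]
  omega

theorem l1_descent {e D : ℕ} {x t : Fin e → Fin D} (h : x ≠ t) :
    ∃ y, (grid e D).Adj x y ∧ l1 y t + 1 = l1 x t := by
  classical
  obtain ⟨i, hi⟩ := Function.ne_iff.1 h
  have hi' : (x i).val ≠ (t i).val := fun h => hi (Fin.ext h)
  have key : ∀ z : Fin D, ((x i).val + 1 = z.val ∨ z.val + 1 = (x i).val) →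
      ((z : ℤ) - (t i : ℤ)).natAbs + 1 = ((x i : ℤ) - (t i : ℤ)).natAbs →
      ∃ y, (grid e D).Adj x y ∧ l1 y t + 1 = l1 x t := by
    intro z hz hz'
    refine ⟨Function.update x i z, ⟨i, fun j hj => by rw [Function.update_of_ne hj], by
      rw [Function.update_self]; exact hz⟩, ?_⟩
    unfold l1
    rw [← Finset.add_sum_erase _ _ (Finset.mem_univ i),
      ← Finset.add_sum_erase _ _ (Finset.mem_univ i)]
    have h3 : ∑ j ∈ Finset.univ.erase i, ((Function.update x i z j : ℤ) - (t j : ℤ)).natAbs =
        ∑ j ∈ Finset.univ.erase i, ((x j : ℤ) - (t j : ℤ)).natAbs := by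
      apply Finset.sum_congr rfl
      intro j hj
      rw [Function.update_of_ne (Finset.ne_of_mem_erase hj)]
    rw [h3, Function.update_self]
    omega
  have hx := (x i).2
  have ht := (t i).2
  rcases lt_or_gt_of_ne hi' with hlt | hlt
  · exact key ⟨(x i).val + 1, by omega⟩ (Or.inl rfl) (by simp only; omega)
  · exact key ⟨(x i).val - 1, by omega⟩ (Or.inr (by simp only; omega)) (by simp only; omega)

theorem exists_walk {e D : ℕ} (t : Fin e → Fin D) : ∀ m : ℕ, ∀ x : Fin e → Fin D, l1 x t = m →
    ∃ w : (grid e D).Walk x t, w.length = m := by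
  intro m
  induction m with
  | zero =>
    intro x hx
    by_cases h : x = t
    · subst h
      exact ⟨Walk.nil, rfl⟩
    · obtain ⟨y, -, h2⟩ := l1_descent h
      omega
  | succ m ih =>
    intro x hx
    by_cases h : x = t
    · subst h
      rw [l1_self] at hx
      omega
    · obtain ⟨y, h1, h2⟩ := l1_descent h
      obtain ⟨w, hw⟩ := ih y (by omega)
      exact ⟨Walk.cons h1 w, by rw [Walk.length_cons, hw]⟩

theorem l1_le_length {e D : ℕ} {x t : Fin e → Fin D} (w : (grid e D).Walk x t) :
    l1 x t ≤ w.length := by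
  induction w with
  | nil => rw [l1_self]; exact Nat.zero_le _
  | @cons a b t h p ih =>
    rw [Walk.length_cons]
    have := l1_lip t h
    exact this.trans (by omega)

theorem grid_connected (e D : ℕ) (hD : 0 < D) : (grid e D).Connected := by
  have : Nonempty (Fin e → Fin D) := ⟨fun _ => ⟨0, hD⟩⟩
  refine Connected.mk (fun x t => ?_)
  obtain ⟨w, -⟩ := exists_walk t _ x rfl
  exact ⟨w⟩

theorem dist_grid {e D : ℕ} (x t : Fin e → Fin D) : (grid e D).dist x t = l1 x t := by
  obtain ⟨w, hw⟩ := exists_walk t _ x rfl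
  apply le_antisymm
  · rw [← hw]
    exact dist_le w
  · obtain ⟨w', hw'⟩ := Reachable.exists_walk_length_eq_dist (G := grid e D) (u := x) (v := t) ⟨w⟩
    rw [← hw']
    exact l1_le_length w'

theorem dist_grid_le {e D : ℕ} (x t : Fin e → Fin D) : (grid e D).dist x t ≤ e * (D - 1) := by
  rw [dist_grid]
  unfold l1
  calc ∑ i, ((x i : ℤ) - (t i : ℤ)).natAbs ≤ ∑ _i : Fin e, (D - 1) := by
        apply Finset.sum_le_sum
        intro i _
        have h1 := (x i).2
        have h2 := (t i).2
        omega
    _ = e * (D - 1) := by simp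

/-! ### A locating colouring of the grid -/

/-- The coordinate sum. -/
def sm {e D : ℕ} (x : Fin e → Fin D) : ℕ := ∑ i, (x i).val

/-- The corners: all coordinates are `0`, except possibly one of the first `n` coordinates. -/
def corner (n D : ℕ) (hD : 0 < D) : Option (Fin n) → (Fin (n + 1) → Fin D)
  | none => fun _ => ⟨0, hD⟩
  | some j => fun i => if i = j.castSucc then ⟨D - 1, by omega⟩ else ⟨0, hD⟩

theorem l1_none {n D : ℕ} (hD : 0 < D) (x : Fin (n + 1) → Fin D) :
    l1 x (corner n D hD none) = sm x := by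
  unfold l1 sm
  apply Finset.sum_congr rfl
  intro i _
  show ((x i : ℤ) - ((0 : ℕ) : ℤ)).natAbs = _
  omega

theorem l1_some {n D : ℕ} (hD : 0 < D) (x : Fin (n + 1) → Fin D) (j : Fin n) :
    l1 x (corner n D hD (some j)) + 2 * (x j.castSucc).val = sm x + (D - 1) := by
  classical
  unfold l1 sm
  rw [← Finset.add_sum_erase _ _ (Finset.mem_univ j.castSucc),
    ← Finset.add_sum_erase _ _ (Finset.mem_univ j.castSucc)]
  have h3 : ∑ i ∈ Finset.univ.erase j.castSucc,
      ((x i : ℤ) - ((corner n D hD (some j) i : Fin D) : ℤ)).natAbs =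
      ∑ i ∈ Finset.univ.erase j.castSucc, (x i).val := by
    apply Finset.sum_congr rfl
    intro i hi
    have : corner n D hD (some j) i = ⟨0, hD⟩ := if_neg (Finset.ne_of_mem_erase hi)
    rw [this]
    simp
  rw [h3]
  have : corner n D hD (some j) j.castSucc = ⟨D - 1, by omega⟩ := if_pos rfl
  rw [this]
  have h4 := (x j.castSucc).2
  simp only
  omega

/-- The distances to the corners determine the point. -/
theorem resolve {n D : ℕ} (hD : 0 < D) (x y : Fin (n + 1) → Fin D)
    (h : ∀ o, l1 x (corner n D hD o) = l1 y (corner n D hD o)) : x = y := by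
  have h0 := h none
  rw [l1_none, l1_none] at h0
  have hj : ∀ j : Fin n, (x j.castSucc).val = (y j.castSucc).val := by
    intro j
    have h1 := l1_some hD x j
    have h2 := l1_some hD y j
    have h3 := h (some j)
    omega
  funext i
  apply Fin.ext
  induction i using Fin.lastCases with
  | cast j => exact hj j
  | last =>
    unfold sm at h0
    rw [Fin.sum_univ_castSucc, Fin.sum_univ_castSucc] at h0
    have : ∑ i : Fin n, (x i.castSucc).val = ∑ i : Fin n, (y i.castSucc).val :=
      Finset.sum_congr rfl (fun j _ => hj j)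
    omega

open Classical in
/-- The colouring: every corner has its own colour and the other vertices are coloured by the
parity of the coordinate sum. -/
noncomputable def gcol (n D : ℕ) (hD : 0 < D) (x : Fin (n + 1) → Fin D) :
    Option (Fin n) ⊕ Bool :=
  if h : ∃ o, x = corner n D hD o then Sum.inl h.choose else Sum.inr (decide (sm x % 2 = 0))

theorem corner_injective {n D : ℕ} (hD : 1 < D) :
    Function.Injective (corner n D (by omega)) := by
  intro a b hab
  have key : ∀ j : Fin n, corner n D (by omega) (some j) j.castSucc = ⟨D - 1, by omega⟩ :=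
    fun j => if_pos rfl
  match a, b, hab with
  | none, none, _ => rfl
  | none, some j, hab =>
    have := congrFun hab j.castSucc
    rw [key] at this
    have := congrArg Fin.val this
    simp only [corner] at this
    omega
  | some j, none, hab =>
    have := congrFun hab j.castSucc
    rw [key] at this
    have := congrArg Fin.val this
    simp only [corner] at this
    omega
  | some j, some k, hab =>
    have h1 := congrFun hab j.castSucc
    rw [key] at h1
    by_cases hjk : j = k
    · rw [hjk]
    · have h2 : corner n D (by omega) (some k) j.castSucc = ⟨0, by omega⟩ :=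
        if_neg (fun h => hjk (Fin.castSucc_injective _ h))
      rw [h2] at h1
      have := congrArg Fin.val h1
      simp only at this
      omega

theorem gcol_corner {n D : ℕ} (hD : 1 < D) (o : Option (Fin n)) :
    gcol n D (by omega) (corner n D (by omega) o) = Sum.inl o := by
  have h : ∃ o', corner n D (by omega) o = corner n D (by omega) o' := ⟨o, rfl⟩
  unfold gcol
  rw [dif_pos h]
  congr 1
  exact (corner_injective hD h.choose_spec).symm

theorem gcol_eq_inl {n D : ℕ} (hD : 0 < D) {x : Fin (n + 1) → Fin D} {o : Option (Fin n)}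
    (h : gcol n D hD x = Sum.inl o) : x = corner n D hD o := by
  unfold gcol at h
  split_ifs at h with h1
  have h2 := h1.choose_spec
  rw [Sum.inl.injEq] at h
  rwa [h] at h2

theorem sm_adj {e D : ℕ} {x y : Fin e → Fin D} (h : (grid e D).Adj x y) :
    sm x = sm y + 1 ∨ sm y = sm x + 1 := by
  classical
  obtain ⟨i, h1, h2⟩ := h
  unfold sm
  rw [← Finset.add_sum_erase _ _ (Finset.mem_univ i), ← Finset.add_sum_erase _ _ (Finset.mem_univ i)]
  have h3 : ∑ j ∈ Finset.univ.erase i, (x j).val = ∑ j ∈ Finset.univ.erase i, (y j).val := by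
    apply Finset.sum_congr rfl
    intro j hj
    rw [h1 j (Finset.ne_of_mem_erase hj)]
  rw [h3]
  omega

/-- The point with first coordinate `a` and all other coordinates zero. -/
def pt (n D : ℕ) (a : Fin D) (hD : 0 < D) : Fin (n + 1) → Fin D := fun i => if i = 0 then a else ⟨0, hD⟩

theorem pt_ne_corner {n D : ℕ} (hD : 0 < D) (a : Fin D) (h0 : 0 < a.val) (h1 : a.val + 1 < D)
    (o : Option (Fin n)) : pt n D a hD ≠ corner n D hD o := by
  intro h
  have h2 := congrFun h 0
  have h3 : pt n D a hD 0 = a := if_pos rfl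
  rw [h3] at h2
  have h4 := congrArg Fin.val h2
  match o, h4 with
  | none, h4 =>
    simp only [corner] at h4
    omega
  | some j, h4 =>
    simp only [corner] at h4
    split_ifs at h4
    · simp only at h4; omega
    · simp only at h4; omega

theorem sm_pt {n D : ℕ} (hD : 0 < D) (a : Fin D) : sm (pt n D a hD) = a.val := by
  unfold sm pt
  rw [Fin.sum_univ_succ]
  simp

theorem gcol_pt {n D : ℕ} (hD : 0 < D) (a : Fin D) (h0 : 0 < a.val) (h1 : a.val + 1 < D) :
    gcol n D hD (pt n D a hD) = Sum.inr (decide (a.val % 2 = 0)) := by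
  have h : ¬ ∃ o, pt n D a hD = corner n D hD o := by
    rintro ⟨o, ho⟩
    exact pt_ne_corner hD a h0 h1 o ho
  unfold gcol
  rw [dif_neg h, sm_pt]

/-- The grid of dimension `n + 1` has locating chromatic number at most `n + 3`. -/
theorem chiL_grid_le (n D : ℕ) (hD : 3 < D) : chiL (grid (n + 1) D) ≤ n + 3 := by
  classical
  have hD0 : 0 < D := by omega
  have hcard : Fintype.card (Option (Fin n) ⊕ Bool) = n + 3 := by simp
  let e : (Option (Fin n) ⊕ Bool) ≃ Fin (n + 3) := Fintype.equivFinOfCardEq hcard
  apply chiL_le _ _ (fun x => e (gcol n D hD0 x))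
  refine ⟨?_, ?_, ?_⟩
  · intro u v huv h
    have h' := e.injective h
    rcases hc : gcol n D hD0 u with o | b
    · have h1 := gcol_eq_inl hD0 hc
      rw [h'] at hc
      have h2 := gcol_eq_inl hD0 hc
      exact huv.ne (h1.trans h2.symm)
    · have key : ∀ w : Fin (n + 1) → Fin D, gcol n D hD0 w = Sum.inr b →
          b = decide (sm w % 2 = 0) := by
        intro w hw
        unfold gcol at hw
        split_ifs at hw with h1
        rw [Sum.inr.injEq] at hw
        exact hw.symm
      have h1 := key u hc
      have h2 := key v (by rw [← h']; exact hc)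
      rw [h1] at h2
      have h3 : (sm u % 2 = 0) ↔ (sm v % 2 = 0) := by simpa using h2
      have h4 := sm_adj huv
      omega
  · intro k
    obtain ⟨z, rfl⟩ := e.surjective k
    rcases z with o | b
    · exact ⟨corner n D hD0 o, congrArg e (gcol_corner (by omega) o)⟩
    · cases b
      · exact ⟨pt n D ⟨1, by omega⟩ hD0, congrArg e
          (by rw [gcol_pt hD0 ⟨1, by omega⟩ (by norm_num) (by show 1 + 1 < D; omega)]; simp)⟩
      · exact ⟨pt n D ⟨2, by omega⟩ hD0, congrArg e
          (by rw [gcol_pt hD0 ⟨2, by omega⟩ (by norm_num) (by show 2 + 1 < D; omega)]; simp)⟩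
  · intro u v h
    apply resolve hD0
    intro o
    have h1 := h (e (Sum.inl o))
    have h2 : {x : Fin (n + 1) → Fin D | e (gcol n D hD0 x) = e (Sum.inl o)} =
        {corner n D hD0 o} := by
      ext x
      rw [Set.mem_singleton_iff]
      constructor
      · intro hx
        exact gcol_eq_inl hD0 (e.injective hx)
      · intro hx
        rw [hx]
        exact congrArg e (gcol_corner (by omega) o)
    rw [h2] at h1
    unfold distSet at h1
    rw [Set.image_singleton, Set.image_singleton, csInf_singleton, csInf_singleton,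
      dist_grid, dist_grid] at h1
    exact h1

/-! ### The product -/

theorem dist_prod_le {e D : ℕ} (hD : 0 < D) (x y : (Fin e → Fin D) × (Fin e → Fin D)) :
    ((grid e D) □ (grid e D)).dist x y ≤ 2 * (e * (D - 1)) := by
  have hc := grid_connected e D hD
  obtain ⟨w1, h1⟩ := hc.exists_walk_length_eq_dist x.1 y.1
  obtain ⟨w2, h2⟩ := hc.exists_walk_length_eq_dist x.2 y.2
  have h3 := dist_grid_le x.1 y.1
  have h4 := dist_grid_le x.2 y.2
  let w : ((grid e D) □ (grid e D)).Walk x y :=
    (w1.boxProdLeft (grid e D) x.2).append (w2.boxProdRight (grid e D) y.1)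
  have h5 : w.length = w1.length + w2.length := by
    show ((w1.boxProdLeft (grid e D) x.2).append (w2.boxProdRight (grid e D) y.1)).length = _
    rw [Walk.length_append]
    have e1 : (w1.boxProdLeft (grid e D) x.2).length = w1.length := Walk.length_map _ _
    have e2 : (w2.boxProdRight (grid e D) y.1).length = w2.length := Walk.length_map _ _
    rw [e1, e2]
  have := dist_le w
  omega

theorem lower (n D : ℕ) (hD : (2 * (n + 1)) ^ (2 * (n + 1)) < D) :
    2 * n + 3 ≤ chiL ((grid (n + 1) D) □ (grid (n + 1) D)) := by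
  classical
  have hD0 : 0 < D := by omega
  by_contra hcon
  have hconn : ((grid (n + 1) D) □ (grid (n + 1) D)).Connected :=
    (grid_connected (n + 1) D hD0).boxProd (grid_connected (n + 1) D hD0)
  have hatt := chiL_attained _ hconn
  obtain ⟨k, hk⟩ : ∃ k, chiL ((grid (n + 1) D) □ (grid (n + 1) D)) = k + 1 := by
    obtain ⟨c, hc⟩ := hatt
    obtain ⟨v⟩ := hconn.nonempty
    exact ⟨chiL ((grid (n + 1) D) □ (grid (n + 1) D)) - 1, by have := (c v).2; omega⟩
  rw [hk] at hatt hcon
  obtain ⟨c, hc⟩ := hatt
  have hk2 : k + 1 ≤ 2 * (n + 1) := by omega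
  have h1 := card_le _ k c hc (2 * ((n + 1) * (D - 1))) (dist_prod_le hD0)
  have h2 : Fintype.card ((Fin (n + 1) → Fin D) × (Fin (n + 1) → Fin D)) = D ^ (2 * (n + 1)) := by
    simp only [Fintype.card_prod, Fintype.card_pi, Fintype.card_fin, Finset.prod_const,
      Finset.card_univ]
    rw [← pow_add]
    congr 1
    omega
  rw [h2] at h1
  have h3 : 2 * ((n + 1) * (D - 1)) + 1 ≤ 2 * (n + 1) * D := by
    obtain ⟨d, rfl⟩ : ∃ d, D = d + 1 := ⟨D - 1, by omega⟩
    rw [Nat.add_sub_cancel]
    nlinarith
  have h4 : (k + 1) * (2 * ((n + 1) * (D - 1)) + 1) ^ k ≤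
      (2 * (n + 1)) * (2 * (n + 1) * D) ^ (2 * n + 1) := by
    apply Nat.mul_le_mul hk2
    calc (2 * ((n + 1) * (D - 1)) + 1) ^ k ≤ (2 * (n + 1) * D) ^ k := Nat.pow_le_pow_left h3 k
      _ ≤ (2 * (n + 1) * D) ^ (2 * n + 1) := Nat.pow_le_pow_right (by positivity) (by omega)
  have h5 : (2 * (n + 1)) * (2 * (n + 1) * D) ^ (2 * n + 1) =
      (2 * (n + 1)) ^ (2 * (n + 1)) * D ^ (2 * n + 1) := by
    rw [mul_pow, ← mul_assoc]
    congr 1
    rw [show 2 * (n + 1) = (2 * n + 1) + 1 from by ring, pow_succ]
    ring
  have h6 : D ^ (2 * (n + 1)) = D * D ^ (2 * n + 1) := by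
    rw [show 2 * (n + 1) = (2 * n + 1) + 1 from by ring, pow_succ]
    ring
  have h7 : D * D ^ (2 * n + 1) ≤ (2 * (n + 1)) ^ (2 * (n + 1)) * D ^ (2 * n + 1) := by
    rw [← h6, ← h5]
    exact h1.trans h4
  have h8 := Nat.le_of_mul_le_mul_right h7 (by positivity)
  omega

/-- For every `n` there is a finite connected graph `G` with `χ_L(G) ≤ n + 3` and
`χ_L(G □ G) ≥ 2 n + 3`. -/
theorem main (n : ℕ) : ∃ (V : Type) (_ : Fintype V) (G : SimpleGraph V), G.Connected ∧
    chiL G ≤ n + 3 ∧ 2 * n + 3 ≤ chiL (G □ G) :=
  ⟨Fin (n + 1) → Fin ((2 * (n + 1)) ^ (2 * (n + 1)) + 4), inferInstance,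
    grid (n + 1) _, grid_connected _ _ (by omega), chiL_grid_le _ _ (by omega),
    lower _ _ (by omega)⟩

/-- For every constant `C` there are finite connected graphs `G`, `H` with
`χ_L(G □ H) ≥ max {χ_L(G), χ_L(H)} + C`. The case `C = 4` is the negated form of the question. -/
theorem result : ∀ C : ℕ, ∃ (V W : Type) (_ : Fintype V) (_ : Fintype W)
    (G : SimpleGraph V) (H : SimpleGraph W),
    G.Connected ∧ H.Connected ∧ max (chiL G) (chiL H) + C ≤ chiL (G □ H) := by
  intro C
  obtain ⟨V, i, G, h1, h2, h3⟩ := main C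
  refine ⟨V, V, i, i, G, G, h1, h1, ?_⟩
  rw [max_self]
  omega

end Pool.Agent.Results.MP_fc8d4d_co.GridProducts
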